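import Pool.Agent.SSN.St

/-!
# SSN, Bs: groups with two generators (Lean: helper77)
-/

set_option autoImplicit false

noncomputable section

open Finset Pool.Agent.Helper64.Rho Pool.Agent.SDG Pool.Agent.MDR
open scoped Classical Pointwise

namespace Pool.Agent.SSN

section

variable {G : Type} [AddCommGroup G] [Finite G]

private theorem Bs_one (h : Two G) (n : ℕ) (hn : 1 ≤ n) :
    Nat.card {x : G // n • x = 0} ≤ n ^ 2 := by
  obtain ⟨a, b, hab⟩ := h
  have h1 : Nat.card {x : G // n • x = 0} = Nat.card (nsmulAddMonoidHom (α := G) n).ker :=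
    Nat.card_congr (Equiv.subtypeEquivRight fun x => by
      rw [AddMonoidHom.mem_ker]
      rfl)
  rw [h1, ← AddSubgroup.index_range]
  have h2 : (nsmulAddMonoidHom (α := G) n).range.index =
      Nat.card (G ⧸ (nsmulAddMonoidHom (α := G) n).range) := rfl
  rw [h2]
  have h3 : Function.Surjective (fun p : Fin n × Fin n =>
      (QuotientAddGroup.mk ((p.1 : ℕ) • a + (p.2 : ℕ) • b) :
        G ⧸ (nsmulAddMonoidHom (α := G) n).range)) := by
    intro q
    obtain ⟨x, rfl⟩ := QuotientAddGroup.mk_surjective q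
    have hx : x ∈ AddSubgroup.closure ({a, b} : Set G) := by
      rw [hab]
      exact AddSubgroup.mem_top x
    obtain ⟨k, l, hkl⟩ := AddSubgroup.mem_closure_pair.1 hx
    have hn0 : (n : ℤ) ≠ 0 := by omega
    have hk0 := Int.emod_nonneg k hn0
    have hl0 := Int.emod_nonneg l hn0
    have hn1 : (0 : ℤ) < n := by omega
    have hk1 := Int.emod_lt_of_pos k hn1
    have hl1 := Int.emod_lt_of_pos l hn1
    refine ⟨(⟨(k % n).toNat, by omega⟩, ⟨(l % n).toNat, by omega⟩), ?_⟩
    simp only
    rw [QuotientAddGroup.eq]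
    refine ⟨(k / n) • a + (l / n) • b, ?_⟩
    show n • ((k / n) • a + (l / n) • b) = _
    have e1 : ((k % n).toNat : ℕ) • a = (k % n) • a := by
      rw [← natCast_zsmul, Int.toNat_of_nonneg hk0]
    have e2 : ((l % n).toNat : ℕ) • b = (l % n) • b := by
      rw [← natCast_zsmul, Int.toNat_of_nonneg hl0]
    have e3 : k • a = (k % n) • a + n • ((k / n) • a) := by
      conv_lhs => rw [← Int.emod_add_mul_ediv k n]
      rw [add_zsmul, mul_zsmul, natCast_zsmul]
    have e4 : l • b = (l % n) • b + n • ((l / n) • b) := by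
      conv_lhs => rw [← Int.emod_add_mul_ediv l n]
      rw [add_zsmul, mul_zsmul, natCast_zsmul]
    rw [e1, e2, ← hkl, e3, e4, nsmul_add]
    abel
  have h4 := Nat.card_le_card_of_surjective _ h3
  rw [Nat.card_prod, Nat.card_eq_fintype_card (α := Fin n), Fintype.card_fin, ← sq] at h4
  exact h4

end

theorem thm_Bs : St_El → St_Bs := by
  intro hEl G _ _ hTwo
  have h1 := fun n hn => Bs_one (G := G) hTwo n hn
  obtain ⟨-, -, hEl3, -, -, -⟩ := hEl G
  set b := AddMonoid.exponent G with hb
  have hb0 : 0 < b := Nat.pos_of_ne_zero AddMonoid.exponent_ne_zero_of_finite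
  obtain ⟨z, hz⟩ := AddMonoid.exists_addOrderOf_eq_exponent
    (AddMonoid.ExponentExists.of_finite (G := G))
  obtain ⟨N, hN, u, hu⟩ := exists_cyclic_quotient_add z
  rw [hz, ← hb] at hN
  have hbx : ∀ x : G, b • x = 0 := fun x => AddMonoid.exponent_nsmul_eq_zero x
  -- the class of `u`
  have hgen : ∀ q : G ⧸ N, q ∈ AddSubgroup.zmultiples (QuotientAddGroup.mk u : G ⧸ N) := by
    intro q
    obtain ⟨x, rfl⟩ := QuotientAddGroup.mk_surjective q
    have hx : x ∈ N ⊔ AddSubgroup.zmultiples u := by
      rw [hu]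
      exact AddSubgroup.mem_top x
    obtain ⟨y, hy, w, ⟨k, hk⟩, rfl⟩ := AddSubgroup.mem_sup.1 hx
    simp only at hk
    refine ⟨k, ?_⟩
    simp only
    rw [← hk, ← QuotientAddGroup.mk_zsmul, QuotientAddGroup.eq]
    have e : -(k • u) + (y + k • u) = y := by abel
    rw [e]
    exact hy
  have hordq : addOrderOf (QuotientAddGroup.mk u : G ⧸ N) = b := by
    rw [← Nat.card_zmultiples, ← hN]
    have e : AddSubgroup.zmultiples (QuotientAddGroup.mk u : G ⧸ N) = ⊤ := by
      rw [AddSubgroup.eq_top_iff']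
      exact hgen
    rw [e]
    exact Nat.card_congr AddSubgroup.topEquiv.toEquiv
  have hordu : addOrderOf u = b := by
    apply Nat.dvd_antisymm
    · exact AddMonoid.addOrder_dvd_exponent u
    · rw [← hordq]
      exact addOrderOf_map_dvd (QuotientAddGroup.mk' N) u
  have hmem : ∀ i : ℤ, i • u ∈ N → (b : ℤ) ∣ i := by
    intro i hi
    rw [← hordq, addOrderOf_dvd_iff_zsmul_eq_zero, ← QuotientAddGroup.mk_zsmul]
    exact (QuotientAddGroup.eq_zero_iff _).2 hi
  have hzero : ∀ i : ℤ, (b : ℤ) ∣ i → i • u = 0 := by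
    intro i hi
    rw [← hordu] at hi
    exact addOrderOf_dvd_iff_zsmul_eq_zero.1 hi
  -- `N` is cyclic
  have hNc : IsAddCyclic N := by
    have : Fintype N := Fintype.ofFinite N
    apply isAddCyclic_of_card_nsmul_eq_zero_le
    intro n hn
    obtain ⟨d, hd⟩ : ∃ d, d = Nat.gcd n b := ⟨_, rfl⟩
    have hd0 : 0 < d := by
      rw [hd]
      exact Nat.gcd_pos_of_pos_left _ hn
    have hdn : d ≤ n := by
      rw [hd]
      exact Nat.gcd_le_left _ hn
    obtain ⟨c, hc⟩ : d ∣ b := by
      rw [hd]
      exact Nat.gcd_dvd_right _ _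
    have hdx : ∀ x : G, n • x = 0 → d • x = 0 := by
      intro x hx
      rw [hd]
      rw [← addOrderOf_dvd_iff_nsmul_eq_zero] at hx ⊢
      exact Nat.dvd_gcd hx (addOrderOf_dvd_of_nsmul_eq_zero (hbx x))
    let g : Fin d × {x : N // n • x = 0} → {x : G // d • x = 0} := fun p =>
      ⟨((p.1 : ℕ) * c) • u + ((p.2 : N) : G), by
        have e1 : d • ((((p.1 : ℕ) * c) : ℕ) • u) = 0 := by
          rw [← mul_nsmul', ← natCast_zsmul]
          apply hzero
          refine ⟨((p.1 : ℕ) : ℤ), ?_⟩
          rw [hc]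
          push_cast
          ring
        have e2 : d • ((p.2 : N) : G) = 0 := by
          apply hdx
          have := congrArg (fun w : N => (w : G)) p.2.2
          simpa using this
        rw [nsmul_add, e1, e2, add_zero]⟩
    have hg : Function.Injective g := by
      rintro ⟨⟨i, hi⟩, x, hx⟩ ⟨⟨j, hj⟩, y, hy⟩ hxy
      have h2 : (i * c) • u + (x : G) = (j * c) • u + (y : G) := congrArg Subtype.val hxy
      have h3 : ((i * c : ℕ) : ℤ) • u - ((j * c : ℕ) : ℤ) • u ∈ N := by
        rw [natCast_zsmul, natCast_zsmul]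
        have e : (i * c) • u - (j * c) • u = (y : G) - (x : G) := by
          rw [sub_eq_sub_iff_add_eq_add, h2]
          abel
        rw [e]
        exact N.sub_mem y.2 x.2
      rw [← sub_smul] at h3
      obtain ⟨k, hk⟩ := hmem _ h3
      have hc0 : (c : ℤ) ≠ 0 := by
        intro h0
        have : c = 0 := by exact_mod_cast h0
        rw [this, mul_zero] at hc
        omega
      have h4 : (i : ℤ) - j = d * k := by
        apply mul_right_cancel₀ hc0
        rw [hc] at hk
        push_cast at hk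
        linarith
      have hij : i = j := by
        have h5 : (d : ℤ) ∣ (i : ℤ) - j := ⟨k, h4⟩
        have h6 := Int.eq_zero_of_abs_lt_dvd h5 (by
          rw [abs_lt]
          constructor <;> omega)
        omega
      subst hij
      have h7 : (x : G) = (y : G) := add_left_cancel h2
      have h8 : x = y := Subtype.ext h7
      subst h8
      rfl
    have h5 := Nat.card_le_card_of_injective g hg
    rw [Nat.card_prod, Nat.card_eq_fintype_card (α := Fin d), Fintype.card_fin] at h5
    have h6 := h1 d hd0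
    have h7 : #{a : N | n • a = 0} = Nat.card {x : N // n • x = 0} := by
      rw [Nat.card_eq_fintype_card, Fintype.card_subtype]
    rw [h7]
    have h8 : d * Nat.card {x : N // n • x = 0} ≤ d * d := by
      rw [← sq]
      exact h5.trans h6
    exact (Nat.le_of_mul_le_mul_left h8 hd0).trans hdn
  obtain ⟨⟨y, hyN⟩, hy⟩ := hNc.exists_generator
  have hNy : ∀ x ∈ N, x ∈ AddSubgroup.zmultiples y := by
    intro x hx
    obtain ⟨k, hk⟩ := hy ⟨x, hx⟩
    refine ⟨k, ?_⟩
    have := congrArg (fun w : N => (w : G)) hk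
    simpa using this
  have hyN' : AddSubgroup.zmultiples y ≤ N := by
    rw [AddSubgroup.zmultiples_le]
    exact hyN
  have hNeq : AddSubgroup.zmultiples y = N := le_antisymm hyN' hNy
  have hordy : addOrderOf y = l0 G := by
    rw [← Nat.card_zmultiples, hNeq]
    have h2 := N.card_mul_index
    rw [hN, ← hEl3] at h2
    exact Nat.eq_of_mul_eq_mul_right hb0 h2
  have hdvd : l0 G ∣ b := by
    rw [← hordy]
    exact AddMonoid.addOrder_dvd_exponent y
  refine ⟨h1, ⟨u, y, ?_, ?_, hordu, hordy, hdvd⟩, Nat.le_of_dvd hb0 hdvd⟩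
  · rw [eq_top_iff, ← hu]
    refine sup_le ?_ ?_
    · rw [← hNeq, AddSubgroup.zmultiples_le]
      exact AddSubgroup.subset_closure (by simp)
    · rw [AddSubgroup.zmultiples_le]
      exact AddSubgroup.subset_closure (by simp)
  · rw [eq_bot_iff]
    rintro x ⟨⟨i, hi⟩, hx⟩
    simp only at hi
    have h2 : i • u ∈ N := by
      rw [hi]
      exact hyN' hx
    rw [AddSubgroup.mem_bot, ← hi]
    exact hzero i (hmem i h2)

end Pool.Agent.SSN

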