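import Pool.Agent.SSN.St

/-!
# SSN, module Ca: candidates
-/

set_option autoImplicit false

noncomputable section

open Finset Pool.Agent.Helper64.Rho Pool.Agent.SDG Pool.Agent.MDR
open scoped Classical Pointwise

namespace Pool.Agent.SSN

private lemma Ca_fin {G : Type} [AddCommGroup G] [Finite G] (L : AddSubgroup G) :
    ∃ F : Finset G, (∀ x, x ∈ F ↔ x ∈ L) ∧ F.card = Nat.card L := by
  refine ⟨(Set.toFinite (L : Set G)).toFinset, fun x => by simp, ?_⟩
  rw [← Set.ncard_eq_toFinset_card]
  rfl

private lemma Ca_mem_st {G : Type} [AddCommGroup G] [Finite G] {A : Finset G} {H : AddSubgroup G}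
    {x : G} : x ∈ st A H ↔ ∃ a ∈ A, x - a ∈ H := by
  unfold st
  rw [Set.Finite.mem_toFinset]
  exact Iff.rfl

private lemma Ca_mem_per {G : Type} [AddCommGroup G] {X : Finset G} {g : G} :
    g ∈ per X ↔ ∀ x, x ∈ X ↔ x + g ∈ X := Iff.rfl

private lemma Ca_fwd {G : Type} [AddCommGroup G] (X : Finset G) (g : G)
    (h : ∀ x ∈ X, x + g ∈ X) : g ∈ per X := by
  rw [Ca_mem_per]
  have h1 : X.image (· + g) ⊆ X := by
    intro y hy
    rw [mem_image] at hy
    obtain ⟨x, hx, rfl⟩ := hy
    exact h x hx
  have h2 : X.image (· + g) = X := by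
    apply eq_of_subset_of_card_le h1
    rw [card_image_of_injective _ (add_left_injective g)]
  intro x
  refine ⟨h x, fun hx => ?_⟩
  rw [← h2, mem_image] at hx
  obtain ⟨y, hy, hyx⟩ := hx
  have : y = x := add_right_cancel hyx
  rwa [← this]

private lemma Ca_one {G ι : Type} [AddCommGroup G] [Finite G] (s : Finset ι) (f : ι → G)
    (R : AddSubgroup G) (hC : Cand s f R) :
    Lg s f R ≤ R ∧ ins s f (Lg s f R) = ins s f R ∧ st (FS s f) (Lg s f R) = st (FS s f) R := by
  have h1 : Lg s f R ≤ R := by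
    unfold Lg gen
    rw [AddSubgroup.closure_le]
    rintro x ⟨i, hi, rfl⟩
    have hi' : i ∈ ins s f R := hi
    unfold ins at hi'
    rw [mem_filter] at hi'
    exact hi'.2
  refine ⟨h1, ?_, ?_⟩
  · unfold ins
    apply filter_congr
    intro i hi
    refine ⟨fun h => h1 h, fun h => ?_⟩
    unfold Lg gen
    apply AddSubgroup.subset_closure
    refine ⟨i, ?_, rfl⟩
    have : i ∈ ins s f R := by
      unfold ins
      rw [mem_filter]
      exact ⟨hi, h⟩
    exact this
  · ext x
    rw [Ca_mem_st, Ca_mem_st]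
    constructor
    · rintro ⟨a, ha, hx⟩
      exact ⟨a, ha, h1 hx⟩
    · rintro ⟨a, ha, hx⟩
      have h2 : x - a ∈ per (st (FS s f) (Lg s f R)) := by
        rw [← hC.2]
        exact hx
      rw [Ca_mem_per] at h2
      have h3 : a ∈ st (FS s f) (Lg s f R) := by
        rw [Ca_mem_st]
        exact ⟨a, ha, by rw [sub_self]; exact AddSubgroup.zero_mem _⟩
      have h4 := (h2 a).mp h3
      rw [add_sub_cancel] at h4
      rwa [Ca_mem_st] at h4

theorem thm_Ca : St_Qg → SDG.St_Ba1 → SDG.St_Kn → SDG.St_Sm → SDG.St_Pc → St_Ca := by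
  intro hQg hBa hKn hSm hPc G ι _ _ s f R hB hC
  obtain ⟨hne, hap, hgen⟩ := hB
  obtain ⟨hQ1, -, -, -, hQ5, -, -⟩ := hQg G ι s f R
  obtain ⟨hLR, hins, hst⟩ := Ca_one s f R hC
  obtain ⟨hBa1, hBa2, -, -, -, -, hBa7⟩ := hBa G ι f
  obtain ⟨-, -, -, hKn4⟩ := hKn G
  have hcard : (st (FS s f) (Lg s f R)).card =
      Nat.card R * (FS (outs s f R) (bar f R)).card := by
    rw [hst, hQ5, hQ1]
  have hsub : ins s f R ⊆ s := by
    unfold ins
    exact filter_subset _ _
  have hfil : (s.filter fun i => f i ∈ Lg s f R) = ins s f R := hins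
  have hYL : ∀ x ∈ FS (ins s f R) f, x ∈ Lg s f R := fun x hx => hBa7 (ins s f R) x hx
  obtain ⟨FL, hFL, hFLc⟩ := Ca_fin (Lg s f R)
  obtain ⟨FR, hFR, hFRc⟩ := Ca_fin R
  have hYle : (FS (ins s f R) f).card ≤ Nat.card (Lg s f R) := by
    rw [← hFLc]
    apply card_le_card
    intro x hx
    rw [hFL]
    exact hYL x hx
  have hLRc : Nat.card (Lg s f R) ≤ Nat.card R := by
    rw [← hFLc, ← hFRc]
    apply card_le_card
    intro x hx
    rw [hFR]
    exact hLR ((hFL x).mp hx)
  have hRpos : 0 < Nat.card R := Nat.card_pos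
  have hgenL : gen (s.filter fun i => f i ∈ Lg s f R) f = Lg s f R := by
    rw [hfil]
    rfl
  have hP2 := (hPc G ι s f (Lg s f R) (FS s f).card hne hap hgenL
    (fun i _ _ => lam_le _ _)).2
  rw [hfil, hcard] at hP2
  refine ⟨⟨hLR, hins, hst⟩, ?_, hcard, ⟨?_, hP2, ?_⟩, ?_, ?_⟩
  · -- aperiodic
    intro gb hg
    obtain ⟨g, rfl⟩ := QuotientAddGroup.mk_surjective gb
    rw [hQ1] at hg
    have h1 : g ∈ per (st (FS s f) R) := by
      apply Ca_fwd
      intro x hx
      rw [Ca_mem_st] at hx ⊢
      obtain ⟨a, ha, hxa⟩ := hx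
      have h2 : (QuotientAddGroup.mk a : G ⧸ R) ∈ qs (FS s f) R := by
        unfold qs
        exact mem_image_of_mem _ ha
      have h3 := hg _ h2
      unfold qs at h3
      rw [mem_image] at h3
      obtain ⟨b, hb, hbe⟩ := h3
      refine ⟨b, hb, ?_⟩
      have h4 : (QuotientAddGroup.mk b : G ⧸ R) = QuotientAddGroup.mk (a + g) := by
        rw [hbe]
        rfl
      rw [QuotientAddGroup.eq] at h4
      have h5 : x + g - b = (x - a) + (-b + (a + g)) := by abel
      rw [h5]
      exact R.add_mem hxa h4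
    rw [← hst, ← hC.2] at h1
    rw [QuotientAddGroup.eq_zero_iff]
    exact h1
  · intro j hj
    have hP1 := (hPc G ι s f (Lg s f R) j hne hap hgenL
      (fun i hi h => hj i hi (hLR h))).1
    rw [hfil, hcard] at hP1
    have h2 : j * (Nat.card (Lg s f R) - (FS (ins s f R) f).card) +
        j * (FS (ins s f R) f).card = j * Nat.card (Lg s f R) := by
      rw [← Nat.mul_add, Nat.sub_add_cancel hYle]
    omega
  · have h1 : Nat.card R * ((FS (outs s f R) (bar f R)).card * (FS (ins s f R) f).card) ≤
        Nat.card R * (FS s f).card := by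
      rw [← mul_assoc]
      exact hP2.trans (Nat.mul_le_mul_right _ hLRc)
    exact Nat.le_of_mul_le_mul_left h1 hRpos
  · intro hRb
    have hap' : Aper (FS (ins s f R) f) := hBa2 s (ins s f R) hsub hap
    have h1 : 1 ≤ (ins s f R).card := by
      by_contra hc
      have h0 : ins s f R = ∅ := by
        rw [← card_eq_zero]
        omega
      apply hRb
      have hL : Lg s f R = ⊥ := by
        unfold Lg gen
        rw [h0]
        simp
      have hstT : st (FS s f) (Lg s f R) = FS s f := by
        ext x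
        rw [Ca_mem_st, hL]
        constructor
        · rintro ⟨a, ha, hx⟩
          rw [AddSubgroup.mem_bot, sub_eq_zero] at hx
          rwa [hx]
        · intro hx
          exact ⟨x, hx, by rw [sub_self]; exact AddSubgroup.zero_mem _⟩
      rw [eq_bot_iff]
      intro g hg
      rw [hC.2, hstT, Ca_mem_per] at hg
      rw [AddSubgroup.mem_bot]
      exact hap g (fun x hx => (hg x).mp hx)
    refine ⟨h1, ?_, ?_⟩
    · apply hKn4 _ _ ⟨0, zero_mem_FS _ _⟩ _ hYL hap'
      obtain ⟨i, hi⟩ := card_pos.mp h1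
      intro hL
      have h2 : f i ∈ Lg s f R := by
        unfold Lg gen
        exact AddSubgroup.subset_closure ⟨i, hi, rfl⟩
      rw [hL, AddSubgroup.mem_bot] at h2
      exact hne i (hsub hi) h2
    · exact (hSm G ι (ins s f R) f (fun i hi => hne i (hsub hi)) hap').1
  · intro hND
    have hout : ∀ i, i ∈ outs s f R ↔ i ∈ s ∧ f i ∉ R := by
      intro i
      unfold outs
      rw [mem_filter]
    -- a member outside
    have hex : ∃ i, i ∈ outs s f R := by
      by_contra hc
      push Not at hc
      apply hC.1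
      rw [eq_top_iff, ← hgen]
      unfold gen
      rw [AddSubgroup.closure_le]
      rintro x ⟨i, hi, rfl⟩
      by_contra hx
      exact hc i ((hout i).mpr ⟨hi, hx⟩)
    obtain ⟨i, hi⟩ := hex
    have hi2 := (hout i).mp hi
    have hex2 : ∃ j, j ∈ outs s f R ∧ j ≠ i := by
      by_contra hc
      push Not at hc
      apply hC.1
      rw [eq_top_iff, ← hND i hi2.1]
      unfold gen
      rw [AddSubgroup.closure_le]
      rintro x ⟨j, hj, rfl⟩
      have hj' : j ∈ s.erase i := hj
      rw [mem_erase] at hj'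
      by_contra hx
      exact hj'.1 (hc j ((hout j).mpr ⟨hj'.2, hx⟩))
    obtain ⟨j, hj, hji⟩ := hex2
    have h2 : 2 ≤ (outs s f R).card := by
      have h3 : ({i, j} : Finset ι) ⊆ outs s f R := by
        intro k hk
        rw [mem_insert, mem_singleton] at hk
        rcases hk with rfl | rfl
        · exact hi
        · exact hj
      have h4 := card_le_card h3
      rwa [card_pair (Ne.symm hji)] at h4
    refine ⟨h2, fun hnc => ?_⟩
    by_contra hc
    apply hnc
    have hsub2 : ∀ k ∈ outs s f R, k = i ∨ k = j := by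
      intro k hk
      by_contra hk2
      push Not at hk2
      apply hc
      have h3 : ({i, j, k} : Finset ι) ⊆ outs s f R := by
        intro l hl
        rw [mem_insert, mem_insert, mem_singleton] at hl
        rcases hl with rfl | rfl | rfl
        · exact hi
        · exact hj
        · exact hk
      have h4 := card_le_card h3
      have h5 : ({i, j, k} : Finset ι).card = 3 := by
        rw [card_eq_three]
        exact ⟨i, j, k, Ne.symm hji, Ne.symm hk2.1, Ne.symm hk2.2, rfl⟩
      omega
    refine ⟨⟨(QuotientAddGroup.mk (f j) : G ⧸ R), fun q => ?_⟩⟩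
    obtain ⟨x, rfl⟩ := QuotientAddGroup.mk_surjective q
    have hK : (⊤ : AddSubgroup G) ≤
        (AddSubgroup.zmultiples (QuotientAddGroup.mk (f j) : G ⧸ R)).comap
          (QuotientAddGroup.mk' R) := by
      rw [← hND i hi2.1]
      unfold gen
      rw [AddSubgroup.closure_le]
      rintro y ⟨k, hk, rfl⟩
      have hk' : k ∈ s.erase i := hk
      rw [mem_erase] at hk'
      show (QuotientAddGroup.mk' R) (f k) ∈
        AddSubgroup.zmultiples (QuotientAddGroup.mk (f j) : G ⧸ R)
      by_cases hkR : f k ∈ R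
      · have h6 : (QuotientAddGroup.mk' R) (f k) = 0 := by
          rw [QuotientAddGroup.mk'_apply, QuotientAddGroup.eq_zero_iff]
          exact hkR
        rw [h6]
        exact AddSubgroup.zero_mem _
      · have h6 := (hsub2 k ((hout k).mpr ⟨hk'.2, hkR⟩)).resolve_left hk'.1
        rw [h6]
        exact AddSubgroup.mem_zmultiples _
    exact hK (AddSubgroup.mem_top x)

end Pool.Agent.SSN
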