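import Pool.Agent.SSN.St

set_option autoImplicit false

noncomputable section

open Finset Pool.Agent.Helper64.Rho Pool.Agent.SDG Pool.Agent.MDR
open scoped Classical Pointwise

namespace Pool.Agent.SSN

private lemma Cc_half {G : Type} [AddCommGroup G] [Finite G] {L R : AddSubgroup G} (h : L ≤ R) (hne : L ≠ R) :
    2 * Nat.card L ≤ Nat.card R := by
  obtain ⟨k, hk⟩ := AddSubgroup.card_dvd_of_le h
  have hL : 0 < Nat.card L := Nat.card_pos
  have hR : 0 < Nat.card R := Nat.card_pos
  have hk0 : k ≠ 0 := by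
    rintro rfl
    rw [mul_zero] at hk
    omega
  have hk1 : k ≠ 1 := by
    rintro rfl
    rw [mul_one] at hk
    exact hne (AddSubgroup.eq_of_le_of_card_ge h (le_of_eq hk))
  have hk2 : 2 ≤ k := by omega
  rw [hk]
  nlinarith

private lemma Cc_FS {ι G : Type} [AddCommGroup G] (d1 d2 : DecidableEq G) (s : Finset ι) (f : ι → G) :
    @FS ι G _ d1 s f = @FS ι G _ d2 s f := by
  have h : d1 = d2 := Subsingleton.elim _ _
  rw [h]

theorem thm_Cc : St_El → St_Qg → St_Ca → SDG.St_Sm → St_Cc := by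
  intro hEl hQg hCa hSm G ι _ _ s f R j hnc hB hND hC hcyc hlam hT
  obtain ⟨⟨hLR, hins, hst⟩, hAp, hcard, ⟨h4a, h4b, h4c⟩, h5, h6⟩ := hCa G ι s f R hB hC
  obtain ⟨hE1, hE2, hE3, hE4, hE5, hE6⟩ := hEl G
  have hR : R ≠ ⊥ := by
    rintro rfl
    apply hnc
    haveI := hcyc
    exact isAddCyclic_of_surjective (QuotientAddGroup.quotientBot (G := G)) (QuotientAddGroup.quotientBot (G := G)).surjective
  have hl0 : l0 G ≤ Nat.card R := hE1 R hcyc
  have he : 2 ≤ (outs s f R).card := (h6 hND).1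
  obtain ⟨hi1, hY1, hY2⟩ := h5 hR
  obtain ⟨hQ1, hQ2, hQ3, hQ4, hQ5, hQ6, hQ7⟩ := hQg G ι s f R
  have eFS : @FS ι (G ⧸ R) _ (fun a b => Classical.propDecidable (a = b)) (outs s f R) (bar f R) =
      FS (outs s f R) (bar f R) := Cc_FS _ _ _ _
  have hN : (outs s f R).card + 1 ≤ (FS (outs s f R) (bar f R)).card := by
    have h := (hSm (G ⧸ R) ι (outs s f R) (bar f R) hQ4 (by rw [eFS]; exact hAp)).1
    rw [eFS] at h
    exact h
  have h4 := h4a j (fun i hi _ => hlam i hi)
  have hLc : Nat.card (Lg s f R) ≤ Nat.card R := AddSubgroup.card_le_of_le hLR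
  have hRpos : 0 < Nat.card R := Nat.card_pos
  have hLpos : 0 < Nat.card (Lg s f R) := Nat.card_pos
  set N := (FS (outs s f R) (bar f R)).card with hNdef
  set Y := (FS (ins s f R) f).card with hYdef
  set T := (FS s f).card with hTdef
  set r := Nat.card R with hr
  set l := Nat.card (Lg s f R) with hl
  have hjl : j * l ≤ j * r := Nat.mul_le_mul_left j hLc
  refine ⟨hR, hl0, he, hN, ?_, h4c, ?_⟩
  · by_contra hcon
    push Not at hcon
    have h1 : r * (j + 2) ≤ r * N := Nat.mul_le_mul_left r (by omega)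
    have h2 : r * (j + 2) = j * r + 2 * r := by ring
    have h3 : 0 ≤ j * Y := Nat.zero_le _
    omega
  · intro hne
    have hhalf : 2 * l ≤ r := Cc_half hLR hne
    have hjl2 : j * (2 * l) ≤ j * r := Nat.mul_le_mul_left j hhalf
    have hjl3 : j * (2 * l) = 2 * (j * l) := by ring
    constructor
    · by_contra hcon
      push Not at hcon
      have h1 : r * (j + 4) ≤ r * (2 * N) := Nat.mul_le_mul_left r (by omega)
      have h2 : r * (j + 4) = j * r + 4 * r := by ring
      have h2' : r * (2 * N) = 2 * (r * N) := by ring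
      omega
    · have h1 : (2 * l) * (N * Y) ≤ r * (N * Y) := Nat.mul_le_mul_right _ hhalf
      have h2 : r * (N * Y) = r * N * Y := by ring
      have h3 : l * (2 * (N * Y)) ≤ l * T := by
        calc l * (2 * (N * Y)) = (2 * l) * (N * Y) := by ring
          _ ≤ r * (N * Y) := h1
          _ = r * N * Y := h2
          _ ≤ l * T := h4b
      exact Nat.le_of_mul_le_mul_left h3 hLpos

end Pool.Agent.SSN
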