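import Pool.Agent.SSN.St

/-!
# SSN La: lam in the quotient
-/

set_option autoImplicit false

noncomputable section

open Finset Pool.Agent.Helper64.Rho Pool.Agent.SDG Pool.Agent.MDR
open scoped Classical Pointwise

namespace Pool.Agent.SSN

theorem thm_La (hQg : St_Qg) : St_La := by
  intro G ι _ _ s f R w
  have h1 := (hQg G ι s f R).1
  -- a representative which is a sum of members outside
  have hrep : ∀ c : G ⧸ R, ∃ z : G, c ∈ FS (outs s f R) (bar f R) →
      (QuotientAddGroup.mk z : G ⧸ R) = c ∧ z ∈ FS (outs s f R) f := by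
    intro c
    by_cases hc : c ∈ FS (outs s f R) (bar f R)
    · obtain ⟨t, ht, hs⟩ := mem_FS.mp hc
      refine ⟨∑ i ∈ t, f i, fun _ => ⟨?_, mem_FS.mpr ⟨t, ht, rfl⟩⟩⟩
      rw [← hs]
      exact map_sum (QuotientAddGroup.mk' R) f t
    · exact ⟨0, fun h => absurd h hc⟩
  choose z hz using hrep
  have hins : ∀ y ∈ FS (ins s f R) f, y ∈ R := by
    intro y hy
    obtain ⟨t, ht, hs⟩ := mem_FS.mp hy
    rw [← hs]
    refine AddSubgroup.sum_mem _ fun i hi => ?_
    exact (Finset.mem_filter.mp (ht hi)).2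
  have hmk : ∀ y ∈ FS (ins s f R) f, ∀ c ∈ FS (outs s f R) (bar f R),
      (QuotientAddGroup.mk (y + z c) : G ⧸ R) = c := by
    intro y hy c hc
    rw [QuotientAddGroup.mk_add, (QuotientAddGroup.eq_zero_iff y).mpr (hins y hy), zero_add, (hz c hc).1]
  unfold lam
  rw [← Finset.card_product]
  refine Finset.card_le_card_of_injOn (fun q => q.1 + z q.2) ?_ ?_
  · rintro ⟨y, c⟩ hq
    have hq' := Finset.mem_coe.mp hq
    rw [Finset.mem_product, Finset.mem_filter] at hq'
    obtain ⟨hy, hc, hcw⟩ := hq'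
    simp only at hy hc hcw
    rw [Finset.mem_coe, Finset.mem_filter]
    constructor
    · obtain ⟨t, ht, hs⟩ := mem_FS.mp hy
      obtain ⟨t', ht', hs'⟩ := mem_FS.mp (hz c hc).2
      have hd : Disjoint t t' := by
        rw [Finset.disjoint_left]
        intro i hi hi'
        exact (Finset.mem_filter.mp (ht' hi')).2 (Finset.mem_filter.mp (ht hi)).2
      refine mem_FS.mpr ⟨t ∪ t', ?_, ?_⟩
      · intro i hi
        rcases Finset.mem_union.mp hi with h | h
        · exact (Finset.mem_filter.mp (ht h)).1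
        · exact (Finset.mem_filter.mp (ht' h)).1
      · rw [Finset.sum_union hd, hs, hs']
    · intro hmem
      apply hcw
      rw [h1]
      refine Finset.mem_image.mpr ⟨y + z c + w, hmem, ?_⟩
      rw [QuotientAddGroup.mk_add, hmk y hy c hc]
  · rintro ⟨y, c⟩ hq ⟨y', c'⟩ hq' he
    have hq1 := Finset.mem_coe.mp hq
    have hq2 := Finset.mem_coe.mp hq'
    rw [Finset.mem_product, Finset.mem_filter] at hq1 hq2
    simp only at hq1 hq2 he
    have hc : c = c' := by
      rw [← hmk y hq1.1 c hq1.2.1, ← hmk y' hq2.1 c' hq2.2.1, he]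
    subst hc
    have : y = y' := add_right_cancel he
    rw [this]

end Pool.Agent.SSN
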