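import Pool.Agent.SSN.St

/-!
# SSN, module Lin: the linear bound in noncyclic groups (Lean: helper34)
-/

set_option autoImplicit false

noncomputable section

open Finset Pool.Agent.Helper64.Rho Pool.Agent.SDG Pool.Agent.MDR
open scoped Classical Pointwise

namespace Pool.Agent.SSN

private theorem Lin_mem_st {G : Type} [AddCommGroup G] [Finite G] {A : Finset G}
    {H : AddSubgroup G} {x : G} : x ∈ st A H ↔ ∃ a ∈ A, x - a ∈ H := by
  unfold st
  rw [Set.Finite.mem_toFinset]
  rfl

/-- leaving a set by steps `d` -/
private theorem Lin_walk {G : Type} [AddCommGroup G] {D : Finset G} {d y : G} (hy : y ∈ D) {t : ℕ}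
    (ht : y + t • d ∉ D) : ∃ m : ℕ, y + m • d ∈ D ∧ y + m • d + d ∉ D := by
  induction t with
  | zero =>
    rw [zero_smul, add_zero] at ht
    exact absurd hy ht
  | succ t ih =>
    by_cases h : y + t • d ∈ D
    · refine ⟨t, h, ?_⟩
      rwa [add_assoc, ← succ_nsmul]
    · exact ih h

private theorem Lin_zm {G : Type} [AddCommGroup G] [Finite G] {d x : G}
    (h : x ∈ AddSubgroup.zmultiples d) : ∃ t : ℕ, x = t • d := by
  have h1 : x ∈ AddSubmonoid.multiples d := mem_multiples_iff_mem_zmultiples.2 h
  obtain ⟨n, hn⟩ := AddSubmonoid.mem_multiples_iff _ _ |>.1 h1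
  exact ⟨n, hn.symm⟩

private theorem Lin_inst {Q ι : Type} [AddCommGroup Q] (i1 i2 : DecidableEq Q) (s : Finset ι)
    (f : ι → Q) : @FS ι Q _ i1 s f = @FS ι Q _ i2 s f := by
  rw [Subsingleton.elim i1 i2]

private theorem Lin_num {K N Y u v t T L : ℕ} (h1 : K * N + 1 * Y ≤ T + 1 * L) (hL : L ≤ K)
    (hYL : Y + 1 ≤ L) (_hv : 1 ≤ v) (hvY : v + 1 ≤ Y) (hu : 2 ≤ u) (hN : u + 1 ≤ N)
    (ht : v + u = t) (hT : T < 2 * t) : False := by
  have h2 : K * (u + 1) ≤ K * N := Nat.mul_le_mul_left _ hN
  have h3 : K * (u + 1) = K * u + K := by ring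
  have h4 : (v + 2) * u ≤ K * u := Nat.mul_le_mul_right _ (by omega)
  have h5 : (v + 2) * u = v * u + 2 * u := by ring
  have h6 : v * 2 ≤ v * u := Nat.mul_le_mul_left _ hu
  omega

private theorem Lin_main {G ι : Type} [AddCommGroup G] [Finite G] (f : ι → G)
    (hCa : St_Ca) (hQg : St_Qg) (hBa : SDG.St_Ba1) (hKn : SDG.St_Kn) (hSm : SDG.St_Sm)
    (hG : ¬ IsAddCyclic G) : ∀ (t : ℕ) (s : Finset ι), s.card = t → Bas s f →
    2 * s.card ≤ (FS s f).card + 1 ∧ (2 * s.card ≤ (FS s f).card ∨ Nat.card G ≤ (FS s f).card + 1) := by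
  intro t
  induction t with
  | zero =>
    intro s hs _
    rw [hs]
    omega
  | succ t ih =>
    intro s hs hB
    obtain ⟨hf0, hAp, hgen⟩ := hB
    obtain ⟨-, hB2, hB3, hB4, -, hB6, hB7⟩ := hBa G ι f
    have hnt : Nontrivial G := by
      by_contra h
      rw [not_nontrivial_iff_subsingleton] at h
      exact hG inferInstance
    have htop : (⊤ : AddSubgroup G) ≠ ⊥ := top_ne_bot
    have hTne : (FS s f).Nonempty := ⟨0, zero_mem_FS s f⟩
    have hcard : (FS s f).card + 1 ≤ Nat.card G := by
      have h := (hKn G).2.2.2 (FS s f) ⊤ hTne htop (fun x _ => AddSubgroup.mem_top x) hAp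
      rwa [Nat.card_congr AddSubgroup.topEquiv.toEquiv] at h
    have hAe : ∀ i, Aper (FS (s.erase i) f) := fun i => hB2 s (s.erase i) (erase_subset i s) hAp
    have hfe : ∀ i, ∀ j ∈ s.erase i, f j ≠ 0 := fun i j hj => hf0 j (mem_of_mem_erase hj)
    by_cases hdrop : ∃ i ∈ s, f i ∉ gen (s.erase i) f
    · obtain ⟨i, hi, hgi⟩ := hdrop
      have h1 := hB4 s i hi hgi
      have h2 := (hSm G ι (s.erase i) f (hfe i) (hAe i)).1
      rw [card_erase_of_mem hi, hs] at h2
      rw [hs]
      omega
    · push Not at hdrop
      have hge : ∀ i ∈ s, gen (s.erase i) f = ⊤ := fun i hi => by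
        rw [hB6 s i hi (hdrop i hi), hgen]
      have hIH : ∀ i ∈ s, 2 * t ≤ (FS (s.erase i) f).card + 1 ∧
          (2 * t ≤ (FS (s.erase i) f).card ∨ Nat.card G ≤ (FS (s.erase i) f).card + 1) := by
        intro i hi
        have h1 : (s.erase i).card = t := by
          rw [card_erase_of_mem hi, hs]
          omega
        have h2 := ih (s.erase i) h1 ⟨hfe i, hAe i, hge i hi⟩
        rwa [h1] at h2
      have hlam : ∀ i ∈ s, 1 ≤ lam (FS s f) (f i) := by
        intro i hi
        by_contra hcon
        have h1 : lam (FS s f) (f i) = 0 := by omega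
        unfold lam at h1
        rw [card_eq_zero, filter_eq_empty_iff] at h1
        apply hf0 i hi
        apply hAp
        intro x hx
        by_contra h2
        exact h1 hx h2
      have hTi : ∀ i ∈ s, 2 * t ≤ (FS (s.erase i) f).card := by
        intro i hi
        have h1 := hB3 s i hi
        have h2 := hlam i hi
        rcases (hIH i hi).2 with h3 | h3
        · exact h3
        · omega
      have hsne : s.Nonempty := card_pos.1 (by omega)
      obtain ⟨i0, hi0⟩ := hsne
      have h1 := hB3 s i0 hi0
      have h2 := hlam i0 hi0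
      have h3 := hTi i0 hi0
      rw [hs]
      refine ⟨by omega, ?_⟩
      by_contra hcon
      push Not at hcon
      obtain ⟨hcon1, hcon2⟩ := hcon
      have hlam1 : ∀ i ∈ s, lam (FS s f) (f i) ≤ 1 := by
        intro i hi
        have h4 := hB3 s i hi
        have h5 := hTi i hi
        omega
      set z := f i0 with hz
      set T := FS s f with hT
      set P := per (st T (AddSubgroup.zmultiples z)) with hP
      have hPm : ∀ g : G, g ∈ P ↔ ∀ x, x ∈ st T (AddSubgroup.zmultiples z) ↔
          x + g ∈ st T (AddSubgroup.zmultiples z) := fun g => Iff.rfl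
      have hzP : z ∈ P := by
        rw [hPm]
        intro x
        rw [Lin_mem_st, Lin_mem_st]
        have hzz : z ∈ AddSubgroup.zmultiples z := AddSubgroup.mem_zmultiples z
        constructor
        · rintro ⟨a, ha, hxa⟩
          refine ⟨a, ha, ?_⟩
          have h6 := AddSubgroup.add_mem _ hxa hzz
          rwa [show x - a + z = x + z - a by abel] at h6
        · rintro ⟨a, ha, hxa⟩
          refine ⟨a, ha, ?_⟩
          have h6 := AddSubgroup.sub_mem _ hxa hzz
          rwa [show x + z - a - z = x - a by abel] at h6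
      by_cases hPt : P = ⊤
      · -- every element is in the union of the cosets that meet T
        have hall : ∀ x : G, x ∈ st T (AddSubgroup.zmultiples z) := by
          intro x
          have h6 : x ∈ P := by
            rw [hPt]
            exact AddSubgroup.mem_top x
          have h7 : (0 : G) ∈ st T (AddSubgroup.zmultiples z) :=
            Lin_mem_st.2 ⟨0, zero_mem_FS s f, by rw [sub_zero]; exact AddSubgroup.zero_mem _⟩
          have h8 := ((hPm x).1 h6 0).1 h7
          rwa [zero_add] at h8
        have : Fintype G := Fintype.ofFinite G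
        have hdiff : ∀ w1 w2 : G, w1 ∉ T → w2 ∉ T → w1 - w2 ∈ AddSubgroup.zmultiples z := by
          have hstep : ∀ w : G, w ∉ T → ∃ x ∈ T, x + z ∉ T ∧ w - x ∈ AddSubgroup.zmultiples z := by
            intro w hw
            obtain ⟨a, ha, hwa⟩ := Lin_mem_st.1 (hall w)
            obtain ⟨k, hk⟩ := Lin_zm hwa
            have h6 : a + k • z ∉ T := by
              rw [← hk, add_sub_cancel]
              exact hw
            obtain ⟨m, hm1, hm2⟩ := Lin_walk ha h6
            refine ⟨a + m • z, hm1, hm2, ?_⟩
            rw [show w - (a + m • z) = (w - a) - m • z by abel]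
            exact AddSubgroup.sub_mem _ hwa (AddSubgroup.nsmul_mem _ (AddSubgroup.mem_zmultiples z) m)
          intro w1 w2 hw1 hw2
          obtain ⟨x1, hx1, hx1', hx1''⟩ := hstep w1 hw1
          obtain ⟨x2, hx2, hx2', hx2''⟩ := hstep w2 hw2
          have h6 : x1 = x2 := by
            have h7 := hlam1 i0 hi0
            unfold lam at h7
            exact card_le_one.1 h7 x1 (mem_filter.2 ⟨hx1, hx1'⟩) x2 (mem_filter.2 ⟨hx2, hx2'⟩)
          rw [h6] at hx1''
          have h8 := AddSubgroup.sub_mem _ hx1'' hx2''
          rwa [show w1 - x2 - (w2 - x2) = w1 - w2 by abel] at h8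
        have hZc : 2 ≤ (Tᶜ : Finset G).card := by
          rw [card_compl, ← Nat.card_eq_fintype_card]
          omega
        have hfz : ∀ i ∈ s, f i ∈ AddSubgroup.zmultiples z := by
          intro i hi
          have h6 : lam (Tᶜ : Finset G) (f i) ≤ 1 := by
            rw [lam_compl]
            exact hlam1 i hi
          unfold lam at h6
          have h7 : ∃ w ∈ (Tᶜ : Finset G), w + f i ∈ (Tᶜ : Finset G) := by
            by_contra h8
            push Not at h8
            rw [filter_true_of_mem h8] at h6
            omega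
          obtain ⟨w, hw1, hw2⟩ := h7
          have h8 := hdiff (w + f i) w (mem_compl.1 hw2) (mem_compl.1 hw1)
          rwa [add_sub_cancel_left] at h8
        apply hG
        have h9 : gen s f ≤ AddSubgroup.zmultiples z := by
          unfold gen
          rw [AddSubgroup.closure_le]
          rintro _ ⟨i, hi, rfl⟩
          exact hfz i hi
        rw [hgen] at h9
        exact ⟨z, fun x => h9 (AddSubgroup.mem_top x)⟩
      · -- P is a candidate
        have hi0P : i0 ∈ ins s f P := by
          unfold ins
          rw [mem_filter]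
          exact ⟨hi0, hzP⟩
        have hzL : AddSubgroup.zmultiples z ≤ Lg s f P := by
          apply AddSubgroup.zmultiples_le_of_mem
          exact AddSubgroup.subset_closure ⟨i0, hi0P, rfl⟩
        have hLP : Lg s f P ≤ P := by
          unfold Lg gen
          rw [AddSubgroup.closure_le]
          rintro _ ⟨i, hi, rfl⟩
          exact (mem_filter.1 hi).2
        have hst : st T (Lg s f P) = st T (AddSubgroup.zmultiples z) := by
          ext x
          constructor
          · intro hx
            obtain ⟨a, ha, hxa⟩ := Lin_mem_st.1 hx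
            have h6 : a ∈ st T (AddSubgroup.zmultiples z) :=
              Lin_mem_st.2 ⟨a, ha, by rw [sub_self]; exact AddSubgroup.zero_mem _⟩
            have h7 := ((hPm _).1 (hLP hxa) a).1 h6
            rwa [add_sub_cancel] at h7
          · intro hx
            obtain ⟨a, ha, hxa⟩ := Lin_mem_st.1 hx
            exact Lin_mem_st.2 ⟨a, ha, hzL hxa⟩
        have hcand : Cand s f P := by
          refine ⟨hPt, ?_⟩
          rw [← hT, hst]
        have hPb : P ≠ ⊥ := by
          intro h
          rw [h, AddSubgroup.mem_bot] at hzP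
          exact hf0 i0 hi0 hzP
        obtain ⟨-, hC2, -, hC4, hC5, hC6⟩ := hCa G ι s f P ⟨hf0, hAp, hgen⟩ hcand
        obtain ⟨hv, hYL, hvY⟩ := hC5 hPb
        have hu := (hC6 hge).1
        have h6 := hC4.1 1 (fun i hi _ => hlam1 i hi)
        have hC2' := hC2
        rw [Lin_inst _ (fun a b => Classical.propDecidable (a = b))] at hC2'
        have h7 := (hSm (G ⧸ P) ι (outs s f P) (bar f P) (hQg G ι s f P).2.2.2.1 hC2').1
        rw [Lin_inst (fun a b => Classical.propDecidable (a = b))
          (fun a b => QuotientAddGroup.instDecidableEqQuotientAddSubgroupOfDecidablePredMem P a b)] at h7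
        have h8 : (ins s f P).card + (outs s f P).card = t + 1 := by
          rw [← hs]
          exact card_filter_add_card_filter_not _
        have h9 : Nat.card (Lg s f P) ≤ Nat.card P :=
          Nat.card_le_card_of_injective _ (AddSubgroup.inclusion_injective hLP)
        exact Lin_num h6 h9 hYL hv hvY hu h7 h8 (by omega)

theorem thm_Lin : St_Ca → St_Qg → SDG.St_Ba1 → SDG.St_Kn → SDG.St_Sm → SDG.St_Pc → St_Lin := by
  intro hCa hQg hBa hKn hSm _ G ι _ _ s f hG hB
  exact Lin_main f hCa hQg hBa hKn hSm hG s.card s rfl hB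

end Pool.Agent.SSN
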