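import Pool.Agent.SSN.St
import Pool.Agent.SDG.Ba1
import Pool.Agent.SDG.Qu

/-!
# SSN, module Qg: quotient families (helper30)
-/

set_option autoImplicit false

noncomputable section

open Finset Pool.Agent.Helper64.Rho Pool.Agent.SDG Pool.Agent.MDR
open scoped Classical Pointwise

namespace Pool.Agent.SSN

/-- a finset with the elements of a subgroup -/
private lemma Qg_fin {G : Type} [AddCommGroup G] [Finite G] (L : AddSubgroup G) :
    ∃ F : Finset G, (∀ x, x ∈ F ↔ x ∈ L) ∧ F.card = Nat.card L := by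
  refine ⟨(Set.toFinite (L : Set G)).toFinset, fun x => by simp, ?_⟩
  rw [← Set.ncard_eq_toFinset_card]
  rfl

private lemma Qg_mk {G : Type} [AddCommGroup G] (K : AddSubgroup G) (x y : G) :
    (QuotientAddGroup.mk x : G ⧸ K) = QuotientAddGroup.mk y ↔ y - x ∈ K := by
  rw [QuotientAddGroup.eq, neg_add_eq_sub]

private lemma Qg_cap {G Q ι : Type} [AddCommGroup G] [Finite G] [AddCommGroup Q]
    (s : Finset ι) (f : ι → G) (K : AddSubgroup G) (π : G →+ Q) (hsur : Function.Surjective π)
    (hker : ∀ x, π x = 0 ↔ x ∈ K) (g : ℕ) (hC : Cap g s f) :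
    Cap (g * Nat.card K) (outs s f K) (fun i => π (f i)) := by
  obtain ⟨KF, hKF, hKc⟩ := Qg_fin K
  have hπ : ∀ x y : G, π x = π y ↔ y - x ∈ K := by
    intro x y
    rw [← hker, map_sub, sub_eq_zero]
    exact eq_comm
  intro x
  obtain ⟨x, rfl⟩ := hsur x
  have h2 : (KF.image (x + ·)).card = Nat.card K := by
    rw [card_image_of_injective _ (add_right_injective x), hKc]
  rw [← h2]
  refine card_le_mul_card_image_of_maps_to
    (f := fun i => if π (f i) = π x then f i else - f i) ?_ g ?_
  · intro i hi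
    rw [mem_filter] at hi
    rw [mem_image]
    by_cases h3 : π (f i) = π x
    · refine ⟨f i - x, ?_, by simp [h3]⟩
      rw [hKF, ← hπ]
      exact h3.symm
    · have h4 : π (f i) = - π x := hi.2.resolve_left h3
      refine ⟨-f i - x, ?_, by simp [h3]⟩
      rw [hKF, ← hπ, map_neg, h4, neg_neg]
  · intro y _
    refine (card_le_card ?_).trans (hC y)
    intro i hi
    rw [mem_filter, mem_filter] at hi
    rw [mem_filter]
    refine ⟨(mem_filter.1 hi.1.1).1, ?_⟩
    by_cases h3 : π (f i) = π x
    · left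
      simpa [h3] using hi.2
    · right
      rw [← hi.2, if_neg h3, neg_neg]

private lemma Qg_st {G : Type} [AddCommGroup G] [Finite G] (K : AddSubgroup G) (X : Finset G) :
    (st X K).card = Nat.card K * (qs X K).card := by
  obtain ⟨KF, hKF, hKc⟩ := Qg_fin K
  have hst : ∀ x, x ∈ st X K ↔ (QuotientAddGroup.mk x : G ⧸ K) ∈ qs X K := by
    intro x
    simp only [st, qs, Set.Finite.mem_toFinset, Set.mem_ofPred_eq, mem_image]
    exact exists_congr fun a => and_congr_right fun _ => (Qg_mk K a x).symm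
  rw [card_eq_sum_card_fiberwise (s := st X K) (f := fun x => (QuotientAddGroup.mk x : G ⧸ K))
    (t := qs X K) (fun x hx => by
      rw [mem_coe] at hx ⊢
      exact (hst x).1 hx)]
  rw [mul_comm, ← smul_eq_mul, ← sum_const]
  refine sum_congr rfl fun C hC => ?_
  obtain ⟨a, ha, rfl⟩ := mem_image.1 hC
  rw [← hKc]
  refine card_bij (fun x _ => x - a) ?_ (fun x _ y _ h => sub_left_injective h) ?_
  · intro x hx
    rw [hKF]
    exact (Qg_mk K _ _).1 (mem_filter.1 hx).2.symm
  · intro y hy
    rw [hKF] at hy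
    refine ⟨a + y, ?_, by abel⟩
    have h2 : (QuotientAddGroup.mk (a + y) : G ⧸ K) = QuotientAddGroup.mk a := by
      rw [Qg_mk]
      have : a - (a + y) = -y := by abel
      rw [this]
      exact K.neg_mem hy
    rw [mem_filter, hst, h2]
    exact ⟨hC, rfl⟩

/-- **QG.** -/
theorem thm_Qg : St_Qg := by
  intro G ι _ _ s f R
  have hsur : Function.Surjective (QuotientAddGroup.mk' R) := QuotientAddGroup.mk'_surjective R
  refine ⟨(thm_Qu thm_Ba1 G ι s f R).1, fun g => Qg_cap s f R
    (QuotientAddGroup.mk' R) hsur (fun x => QuotientAddGroup.eq_zero_iff x) g, ?_, ?_, Qg_st R,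
    ?_, ?_⟩
  · intro hg
    rw [eq_top_iff]
    intro x _
    obtain ⟨y, rfl⟩ := hsur x
    have h1 : y ∈ gen s f := by
      rw [hg]
      trivial
    have h2 : gen s f ≤ (gen (outs s f R) (bar f R)).comap (QuotientAddGroup.mk' R) := by
      unfold gen
      rw [AddSubgroup.closure_le]
      rintro _ ⟨i, hi, rfl⟩
      by_cases hR : f i ∈ R
      · have h3 : QuotientAddGroup.mk' R (f i) = 0 := (QuotientAddGroup.eq_zero_iff (f i)).2 hR
        show QuotientAddGroup.mk' R (f i) ∈ gen (outs s f R) (bar f R)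
        rw [h3]
        exact AddSubgroup.zero_mem _
      · exact AddSubgroup.subset_closure ⟨i, mem_coe.2 (mem_filter.2 ⟨hi, hR⟩), rfl⟩
    exact h2 h1
  · intro i hi h
    exact (mem_filter.1 hi).2 ((QuotientAddGroup.eq_zero_iff (f i)).1 h)
  · rintro ⟨a, b, hab⟩
    refine ⟨QuotientAddGroup.mk' R a, QuotientAddGroup.mk' R b, ?_⟩
    have h1 := congrArg (AddSubgroup.map (QuotientAddGroup.mk' R)) hab
    rw [AddMonoidHom.map_closure, Set.image_pair, AddSubgroup.map_top_of_surjective _ hsur] at h1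
    exact h1
  · intro hc
    exact isAddCyclic_of_surjective (QuotientAddGroup.mk' R) hsur

end Pool.Agent.SSN
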