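import Pool.Agent.SSN.St

/-!
# SSN, part Sp: `G / C` cyclic, `C` not cyclic (offer 16133, helper81)

`thm_Sp : St_El → St_Bs → St_Sp`.
-/

set_option autoImplicit false

noncomputable section

open Finset Pool.Agent.Helper64.Rho Pool.Agent.SDG Pool.Agent.MDR
open scoped Classical Pointwise

namespace Pool.Agent.SSN

/-- `g` has order `N` modulo `C` and is killed by `N`: it gives `d` times as many elements killed by `d` -/
private theorem Sp_count {G : Type} [AddCommGroup G] [Finite G] (C : AddSubgroup G) (g : G) (N d : ℕ)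
    (hN : 0 < N) (hd : 0 < d) (hdN : d ∣ N)
    (hg : addOrderOf (QuotientAddGroup.mk g : G ⧸ C) = N) (hg0 : N • g = 0) :
    d * Nat.card {x : C // d • x = 0} ≤ Nat.card {x : G // d • x = 0} := by
  obtain ⟨e, he⟩ := hdN
  have he0 : 0 < e := by
    rcases Nat.eq_zero_or_pos e with h | h
    · rw [h, Nat.mul_zero] at he
      omega
    · exact h
  have hmem : ∀ (i : Fin d) (x : {x : C // d • x = 0}), d • (((i : ℕ) * e) • g + ((x : C) : G)) = 0 := by
    intro i x
    have h1 : d • ((x : C) : G) = 0 := by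
      have h0 : ((d • (x : C) : C) : G) = ((0 : C) : G) := congrArg Subtype.val x.2
      rwa [AddSubgroup.coe_nsmul, AddSubgroup.coe_zero] at h0
    rw [smul_add, h1, add_zero, smul_smul]
    have h2 : d * ((i : ℕ) * e) = (i : ℕ) * N := by
      rw [he]
      ring
    rw [h2, mul_smul, hg0, smul_zero]
  let F : Fin d × {x : C // d • x = 0} → {x : G // d • x = 0} := fun p =>
    ⟨((p.1 : ℕ) * e) • g + ((p.2 : C) : G), hmem p.1 p.2⟩
  have hF : Function.Injective F := by
    rintro ⟨i, x⟩ ⟨j, y⟩ h
    have h' : ((i : ℕ) * e) • g + ((x : C) : G) = ((j : ℕ) * e) • g + ((y : C) : G) := congrArg Subtype.val h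
    have hq := congrArg (fun z : G => (QuotientAddGroup.mk z : G ⧸ C)) h'
    simp only [QuotientAddGroup.mk_add, QuotientAddGroup.mk_nsmul] at hq
    rw [(QuotientAddGroup.eq_zero_iff ((x : C) : G)).2 (x : C).2, (QuotientAddGroup.eq_zero_iff ((y : C) : G)).2 (y : C).2,
      add_zero, add_zero] at hq
    have hlt : ∀ k : Fin d, (k : ℕ) * e < N := by
      intro k
      rw [he]
      exact Nat.mul_lt_mul_of_pos_right k.2 he0
    have hij : (i : ℕ) * e = (j : ℕ) * e := by
      have := (nsmul_inj_mod (x := (QuotientAddGroup.mk g : G ⧸ C))).1 hq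
      rw [hg, Nat.mod_eq_of_lt (hlt i), Nat.mod_eq_of_lt (hlt j)] at this
      exact this
    have hij' : (i : ℕ) = (j : ℕ) := Nat.eq_of_mul_eq_mul_right he0 hij
    rw [hij'] at h'
    have hxy : ((x : C) : G) = ((y : C) : G) := add_left_cancel h'
    have h3 : i = j := Fin.ext hij'
    have h4 : x = y := Subtype.ext (Subtype.ext hxy)
    rw [h3, h4]
  have h5 := Nat.card_le_card_of_injective F hF
  rwa [Nat.card_prod, Nat.card_fin] at h5

/-- a finite noncyclic group has `n` with more than `n` elements killed by `n` -/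
private theorem Sp_nc {C : Type} [AddCommGroup C] [Finite C] (h : ¬ IsAddCyclic C) :
    ∃ n : ℕ, 0 < n ∧ n < Nat.card {x : C // n • x = 0} := by
  have := Fintype.ofFinite C
  by_contra hcon
  push Not at hcon
  apply h
  refine isAddCyclic_of_card_nsmul_eq_zero_le ?_
  intro n hn
  have h1 := hcon n hn
  rw [Nat.card_eq_fintype_card, Fintype.card_subtype] at h1
  exact h1

/-- **Sp** -/
theorem thm_Sp : St_El → St_Bs → St_Sp := by
  intro hEl hBs G _ _ C hTwo hcyc hnc
  obtain ⟨-, -, hle, -, -, -⟩ := hEl G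
  obtain ⟨hsq, -, -⟩ := hBs G hTwo
  have hexp0 : 0 < AddMonoid.exponent G := Nat.pos_of_ne_zero AddMonoid.exponent_ne_zero_of_finite
  have hN : 0 < Nat.card (G ⧸ C) := Nat.card_pos
  have hcard : Nat.card G = Nat.card (G ⧸ C) * Nat.card C := AddSubgroup.card_eq_card_quotient_mul_card_addSubgroup C
  obtain ⟨q, hq⟩ := hcyc.exists_generator
  obtain ⟨g, rfl⟩ := QuotientAddGroup.mk_surjective q
  have hg : addOrderOf (QuotientAddGroup.mk g : G ⧸ C) = Nat.card (G ⧸ C) :=
    addOrderOf_eq_card_of_forall_mem_zmultiples hq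
  generalize hNdef : Nat.card (G ⧸ C) = N at *
  have key : 2 * N ≤ AddMonoid.exponent G := by
    by_cases hcase : ∃ k ∈ C, N • (g + k) ≠ 0
    · obtain ⟨k, hk, hne⟩ := hcase
      have h1 : (QuotientAddGroup.mk (g + k) : G ⧸ C) = QuotientAddGroup.mk g := by
        rw [QuotientAddGroup.mk_add, (QuotientAddGroup.eq_zero_iff k).2 hk, add_zero]
      have h2 : N ∣ addOrderOf (g + k) := by
        rw [← hg, ← h1]
        exact addOrderOf_map_dvd (QuotientAddGroup.mk' C) (g + k)
      obtain ⟨c, hc⟩ := h2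
      have h3 : 0 < addOrderOf (g + k) := addOrderOf_pos (g + k)
      have h4 : c ≠ 0 := by
        rintro rfl
        rw [Nat.mul_zero] at hc
        omega
      have h5 : c ≠ 1 := by
        rintro rfl
        rw [Nat.mul_one] at hc
        apply hne
        rw [← hc]
        exact addOrderOf_nsmul_eq_zero (g + k)
      have h6 : addOrderOf (g + k) ≤ AddMonoid.exponent G :=
        Nat.le_of_dvd hexp0 (AddMonoid.addOrder_dvd_exponent (g + k))
      have h7 : 2 ≤ c := by omega
      have h8 : N * 2 ≤ N * c := Nat.mul_le_mul_left N h7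
      omega
    · exfalso
      push Not at hcase
      have hg0 : N • g = 0 := by
        have := hcase 0 C.zero_mem
        rwa [add_zero] at this
      have hk0 : ∀ x : C, N • x = 0 := by
        intro x
        have h1 := hcase (x : G) x.2
        rw [smul_add, hg0, zero_add] at h1
        exact Subtype.ext (by simpa using h1)
      obtain ⟨n, hn, hnlt⟩ := Sp_nc hnc
      have hd : 0 < Nat.gcd n N := Nat.gcd_pos_of_pos_left N hn
      have hiff : ∀ x : C, n • x = 0 → Nat.gcd n N • x = 0 := by
        intro x hx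
        rw [← addOrderOf_dvd_iff_nsmul_eq_zero] at hx ⊢
        exact Nat.dvd_gcd hx ((addOrderOf_dvd_iff_nsmul_eq_zero).2 (hk0 x))
      have h1 : Nat.card {x : C // n • x = 0} ≤ Nat.card {x : C // Nat.gcd n N • x = 0} :=
        Nat.card_le_card_of_injective
          (fun x : {x : C // n • x = 0} => (⟨x.1, hiff x.1 x.2⟩ : {x : C // Nat.gcd n N • x = 0}))
          (fun x y h => Subtype.ext (congrArg (fun z : {x : C // Nat.gcd n N • x = 0} => z.1) h))
      have h2 := Sp_count C g N (Nat.gcd n N) hN hd (Nat.gcd_dvd_right n N) hg hg0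
      have h3 := hsq (Nat.gcd n N) hd
      have h4 : Nat.gcd n N ≤ n := Nat.gcd_le_left N hn
      have h5 : Nat.gcd n N * Nat.card {x : C // Nat.gcd n N • x = 0} ≤ Nat.gcd n N * Nat.gcd n N := by
        calc _ ≤ Nat.card {x : G // Nat.gcd n N • x = 0} := h2
          _ ≤ Nat.gcd n N ^ 2 := h3
          _ = _ := by ring
      have h6 := Nat.le_of_mul_le_mul_left h5 hd
      omega
  have h1 : N * (2 * l0 G) ≤ N * Nat.card C := by
    calc N * (2 * l0 G) = l0 G * (2 * N) := by ring
      _ ≤ l0 G * AddMonoid.exponent G := Nat.mul_le_mul_left _ key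
      _ = Nat.card G := hle
      _ = N * Nat.card C := hcard
  exact Nat.le_of_mul_le_mul_left h1 hN

end Pool.Agent.SSN
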