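import Mathlib
import Pool.Agent.SDG.St
import Pool.Agent.MDR.St
import Pool.Agent.Helper64.Rho.Dual

/-!
# SSN: subset sums in noncyclic groups, m ≤ n / exp (MP_ec93d3_co)

Architect helper64 (with helper48, helper22, helper86, helper97).  Definitions: `FS`, `lam` (Helper64.Rho), `Aper`, `Cap`, `gen`, `cf`,
`st`, `TT` (Pool.Agent.SDG.St), `AS`, `ins`, `outs` (Pool.Agent.MDR.St).

Aim: for a noncyclic group `G` generated by two elements, of order `n`, and `2 ≤ m ≤ n / exp G`, the function `rho G m`.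

Notation in the docstrings: `T = FS s f`, `t = |s|`, `c(h, t) = cf (2 h) t`, `lam_T(x) = lam T x`, the members in R: `ins s f R`,
`K = G`.  Facts of `SDG` (`SDG.Ba1 (3)` etc.) are the statements `Pool.Agent.SDG.St_Ba1` etc.; all of them are proved in
`Pool.Agent.SDG.All` (`all_Ba1`, `all_Kn`, `all_Sm`, `all_Tr`, `all_Qu`, `all_Pc`, `all_main`, `all_Nm1`, `all_Nm2`, `all_Kp`, `all_Co`).
Every `St_X` is a statement; its proof is in the docstring.  A module proves `thm_X : St_A → St_B → ... → St_X` with exactly the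
hypotheses listed in the docstring, in this order.  DO NOT use the tactic `convert`; for two decidability instances use `Subsingleton.elim`.
-/

set_option autoImplicit false

noncomputable section

open Finset Pool.Agent.Helper64.Rho Pool.Agent.SDG Pool.Agent.MDR
open scoped Classical Pointwise

namespace Pool.Agent.SSN

/-- generated by two elements -/
def Two (G : Type) [AddCommGroup G] : Prop := ∃ a b : G, AddSubgroup.closure ({a, b} : Set G) = ⊤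

/-- the least order of a subgroup with cyclic quotient; `l0 G * exp G = |G|` -/
def l0 (G : Type) [AddCommGroup G] : ℕ := sInf {k | ∃ H : AddSubgroup G, IsAddCyclic (G ⧸ H) ∧ Nat.card H = k}

/-- the family modulo `R` -/
def bar {G ι : Type} [AddCommGroup G] (f : ι → G) (R : AddSubgroup G) : ι → G ⧸ R := fun i => (QuotientAddGroup.mk (f i) : G ⧸ R)

/-- the subgroup of the periods -/
def per {G : Type} [AddCommGroup G] (X : Finset G) : AddSubgroup G where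
  carrier := {g | ∀ x, x ∈ X ↔ x + g ∈ X}
  zero_mem' := fun x => by rw [add_zero]
  add_mem' := by
    intro a b ha hb x
    rw [ha x, hb (x + a), add_assoc]
  neg_mem' := by
    intro a ha x
    have h := ha (x + -a)
    rw [neg_add_cancel_right] at h
    exact h.symm

/-- the subgroup generated by the members in `R` -/
def Lg {G ι : Type} [AddCommGroup G] (s : Finset ι) (f : ι → G) (R : AddSubgroup G) : AddSubgroup G := gen (ins s f R) f

/-- nonzero members, aperiodic sums, generating -/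
def Bas {G ι : Type} [AddCommGroup G] (s : Finset ι) (f : ι → G) : Prop :=
  (∀ i ∈ s, f i ≠ 0) ∧ Aper (FS s f) ∧ gen s f = ⊤

/-- candidates: `R ≠ ⊤` is the group of the periods of `T + L`, `L` generated by the members in `R` -/
def Cand {G ι : Type} [AddCommGroup G] [Finite G] (s : Finset ι) (f : ι → G) (R : AddSubgroup G) : Prop :=
  R ≠ ⊤ ∧ R = per (st (FS s f) (Lg s f R))

/-- every member is in the group generated by the others -/
def NoDrop {G ι : Type} [AddCommGroup G] (s : Finset ι) (f : ι → G) : Prop := ∀ i ∈ s, gen (s.erase i) f = ⊤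

/-- the cosets that meet `X` -/
def qs {G : Type} [AddCommGroup G] (X : Finset G) (L : AddSubgroup G) : Finset (G ⧸ L) :=
  X.image fun x => (QuotientAddGroup.mk x : G ⧸ L)

/-- the part of `X` in a coset -/
def row {G : Type} [AddCommGroup G] (X : Finset G) (L : AddSubgroup G) (c : G ⧸ L) : Finset G :=
  X.filter fun x => (QuotientAddGroup.mk x : G ⧸ L) = c

/-- the coset is not contained in `X` -/
def Prt {G : Type} [AddCommGroup G] (X : Finset G) (L : AddSubgroup G) (c : G ⧸ L) : Prop :=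
  ∃ y : G, (QuotientAddGroup.mk y : G ⧸ L) = c ∧ y ∉ X

/-- sums of `i` different members -/
def ks {G ι : Type} [AddCommGroup G] (f : ι → G) (O : Finset ι) (i : ℕ) : Finset G :=
  (O.powersetCard i).image fun S => ∑ x ∈ S, f x

/-- `2 c(1, t - 1)`, except for `t = 4` and `t = 6` -/
def pc (t : ℕ) : ℕ := if t = 4 then 9 else if t = 6 then 19 else 2 * cf 2 (t - 1)

/-! ## The invariant `l0` -/

/-- **El** (1.5 h, uses `Helper64.Rho.exists_cyclic_quotient_add`).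
(1), (2): definition of `l0`; the set is nonempty (`H = ⊤`), `Nat.sInf_le`, `Nat.sInf_mem`.
(3): let `H` have `G / H` cyclic and `|H| = l0 G`; `G / H` has order `N = |G| / |H|` and an element `x + H` of order `N`; the order of `x` is a multiple of `N`, so
`N ∣ exp G`, `N ≤ exp G`, `|G| ≤ l0 G * exp G`.  Conversely let `z` have order `exp G` (`AddCommGroup.exists_addOrderOf_eq_exponent` or similar); `exists_cyclic_quotient_add z` gives `N`
with `N.index = exp G` and `N ⊔ ⟨u⟩ = ⊤`, so `G / N` is cyclic (generated by the class of `u`) and `l0 G ≤ |N| = |G| / exp G`.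
(4) `R ≤ G`, `H' ≤ G / R` with cyclic quotient and `|H'| = l0 (G / R)`; `H` = preimage (`comap (mk' R)`), `|H| = |R| |H'|`, `G / H ≅ (G/R)/H'` is cyclic (it is enough: `mk' H'` composed with `mk' R` is
surjective from `G` with kernel `H`; `QuotientAddGroup.quotientKerEquivOfSurjective`).
(5) the order of `z` divides `exp G`, and `index * order = |G| = l0 G * exp G`.  (6) `l0 G = 1` would give `H` with one element, `H = ⊥`, and `G ≅ G / ⊥` cyclic; `l0 G ≠ 0` since `|H| > 0`. -/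
def St_El : Prop :=
  ∀ (G : Type) [AddCommGroup G] [Finite G],
    (∀ H : AddSubgroup G, IsAddCyclic (G ⧸ H) → l0 G ≤ Nat.card H) ∧
    (∃ H : AddSubgroup G, IsAddCyclic (G ⧸ H) ∧ Nat.card H = l0 G) ∧
    (l0 G * AddMonoid.exponent G = Nat.card G) ∧
    (∀ R : AddSubgroup G, l0 G ≤ Nat.card R * l0 (G ⧸ R)) ∧
    (∀ z : G, l0 G ≤ (AddSubgroup.zmultiples z).index) ∧
    (¬ IsAddCyclic G → 2 ≤ l0 G)

/-- **Bs** (2 h, from El).  Groups with two generators.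
(1) `x ↦ n • x` has kernel `{x | n • x = 0}` and cokernel `G / nG` of the same order; `G / nG` is generated by the classes `a, b` of two elements, `n • a = n • b = 0`, so every class is `i a + j b` with
`0 ≤ i, j < n`: at most `n ^ 2` classes.
(2) `b = exp G`.  As in El (3): `z` of order `b`, `N` of index `b` and `u` with `N ⊔ ⟨u⟩ = ⊤`; `G / N` is cyclic of order `b` generated by the class of `u`, so the order of `u` is a multiple of `b`, hence `= b`, `|⟨u⟩| |N| = |G|` and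
`⟨u⟩ ⊓ N = ⊥` (`x = i u ∈ N` gives `b ∣ i`).  So `G` is the direct sum of `⟨u⟩` and `N`.  `N` is cyclic: let `n ≥ 1` and `d = gcd (n, b)`; as `b • x = 0` for all `x`, `n • x = 0` iff `d • x = 0` (Bezout).
The elements `x ∈ G` with `d • x = 0` are the sums of such an element of `⟨u⟩` (there are `d` of them, `d ∣ b`) and of `N`; so `d * #{x ∈ N | d • x = 0} ≤ d ^ 2` by (1), `#{x ∈ N | n • x = 0} ≤ d ≤ n`, and
`isAddCyclic_of_card_nsmul_eq_zero_le` (additive version of `isCyclic_of_card_pow_eq_one_le`) applies.  Let `x = u` and `y` a generator of `N` (as an element of `G`); `addOrderOf y = |N| = |G| / b = l0 G` (El (3)), and it divides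
`exp G` (order of an element). -/
def St_Bs : Prop :=
  ∀ (G : Type) [AddCommGroup G] [Finite G], Two G →
    (∀ n : ℕ, 1 ≤ n → Nat.card {x : G // n • x = 0} ≤ n ^ 2) ∧
    (∃ x y : G, AddSubgroup.closure ({x, y} : Set G) = ⊤ ∧ AddSubgroup.zmultiples x ⊓ AddSubgroup.zmultiples y = ⊥ ∧
      addOrderOf x = AddMonoid.exponent G ∧ addOrderOf y = l0 G ∧ l0 G ∣ AddMonoid.exponent G) ∧
    l0 G ≤ AddMonoid.exponent G

/-- **Sp** (1.5 h, from El, Bs).  `G / C` cyclic, `C` not cyclic: `2 l0 G ≤ |C|`.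
Proof.  `N = |G / C|`, `g ∈ G` whose class generates `G / C` (so its class has order `N`).  We have to show `exp G ≥ 2 N` (El (3): `l0 G * exp G = |G| = N |C|`).  If `N • (g + k) ≠ 0` for some `k ∈ C`: the order of
`g + k` is a multiple of `N` (its class is the class of `g`) and not `N`, so it is `≥ 2 N`, and it is `≤ exp G`.  Otherwise `N • g = 0` and `N • k = 0` for all `k ∈ C`; so every element of `G = C + ⟨g⟩` is killed by `N`, and
`C ∩ ⟨g⟩ = 0` (`i g ∈ C` gives `N ∣ i`).  `C` is not cyclic: by `isAddCyclic_of_card_nsmul_eq_zero_le` there is `n ≥ 1` with `#{x ∈ C | n • x = 0} > n`.  Let `d = gcd (n, N)`; `n • x = 0` iff `d • x = 0` (since `N • x = 0`).  So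
`#{x ∈ C | d • x = 0} > d`, `⟨g⟩` has order `N` and contains `d` elements killed by `d`; the sums are different: `#{x ∈ G | d • x = 0} > d ^ 2`, against Bs (1). -/
def St_Sp : Prop :=
  ∀ (G : Type) [AddCommGroup G] [Finite G] (C : AddSubgroup G), Two G → IsAddCyclic (G ⧸ C) → ¬ IsAddCyclic C →
    2 * l0 G ≤ Nat.card C

/-! ## Quotients, candidates -/

/-- **Qg** (1 h; see SDG.Qu and its proof Pool/Agent/SDG/Qu.lean).  Quotient by `R`, `outs s f R` = the members not in `R`.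
(1) `FS (outs s f R) f̄` = image of `FS s f` (SDG.Qu (1)).  (2) `Cap g s f` gives `Cap (g |R|)`: the members with `mk (f i) = ± x̄` are mapped to `f i` or `- f i`, whichever lies in `x + R`, at most `g` members have the same value up to sign.
(3) the classes of the members generate `G / R`, those in `R` are `0`.  (4) clear.  (5) `st X R` is the union of the cosets in `qs X R`.  (6), (7) images of generators. -/
def St_Qg : Prop :=
  ∀ (G ι : Type) [AddCommGroup G] [Finite G] (s : Finset ι) (f : ι → G) (R : AddSubgroup G),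
    FS (outs s f R) (bar f R) = qs (FS s f) R ∧
    (∀ g, Cap g s f → Cap (g * Nat.card R) (outs s f R) (bar f R)) ∧
    (gen s f = ⊤ → gen (outs s f R) (bar f R) = ⊤) ∧
    (∀ i ∈ outs s f R, bar f R i ≠ 0) ∧
    (∀ X : Finset G, (st X R).card = Nat.card R * (qs X R).card) ∧
    (Two G → Two (G ⧸ R)) ∧
    (IsAddCyclic G → IsAddCyclic (G ⧸ R))

/-- **Ca** (1.8 h, from Qg, SDG.Ba1, SDG.Kn, SDG.Sm, SDG.Pc).  Candidates.  `Bas s f`, `Cand s f R`, `L = Lg s f R`, `Y = |FS (ins s f R) f|`, `N = |FS (outs s f R) f̄|`.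
(1) `L ≤ R` (generated by members in `R`), the members in `L` are the members in `R`, `st T L = st T R`: `⊆` since `L ≤ R`; `⊇`: `st T L` is `R`-periodic (`R = per (st T L)`) and contains `T`.
(2) `FS (outs) f̄` is aperiodic: it is the image of `T` (Qg (1)), and of `st T L = st T R`; a period `ḡ` of the image gives a period `g` of `st T R` (`st T R` is a union of `R`-cosets), so `g ∈ per (st T L) = R`, `ḡ = 0`.
(3) Qg (1), (5): `|st T L| = |st T R| = |R| N`.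
(4) SDG.Pc (1) for `L` (`ins s f L = ins s f R`, `gen (ins s f L) f = L`): `|st T L| ≤ |T| + j (|L| - Y)`, and `Y ≤ |L|` since `FS (ins) ⊆ L`.  SDG.Pc (2): `|st T L| Y ≤ |L| |T|`, and `|L| ≤ |R|`.
SDG.Pc has the hypothesis on `lam` for both parts; the second part is used with `j = |T|` (`lam ≤ |T|`).
(5) `R ≠ ⊥`: if no member is in `R` then `L = ⊥`, `st T L = T`, `R = per T = ⊥` (aperiodic).  So there is a member in `R`, `L ≠ ⊥`, and `FS (ins s f R) f ⊆ L` is aperiodic (SDG.Ba1 (2)), `Y + 1 ≤ |L|` by SDG.Kn (4), `|ins| + 1 ≤ Y` by SDG.Sm.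
(6) `gen s f = ⊤ ≠ R`, so some member `i` is not in `R`; if it is the only one, `s.erase i` is in `R` and does not generate.  If `G / R` is not cyclic and there are only two, `i, i'`: `gen (s.erase i) f = ⊤` maps onto `⟨f̄ i'⟩`, so `G / R` is cyclic. -/
def St_Ca : Prop :=
  ∀ (G ι : Type) [AddCommGroup G] [Finite G] (s : Finset ι) (f : ι → G) (R : AddSubgroup G), Bas s f → Cand s f R →
    (Lg s f R ≤ R ∧ ins s f (Lg s f R) = ins s f R ∧ st (FS s f) (Lg s f R) = st (FS s f) R) ∧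
    Aper (FS (outs s f R) (bar f R)) ∧
    (st (FS s f) (Lg s f R)).card = Nat.card R * (FS (outs s f R) (bar f R)).card ∧
    ((∀ j : ℕ, (∀ i ∈ s, f i ∈ R → lam (FS s f) (f i) ≤ j) →
        Nat.card R * (FS (outs s f R) (bar f R)).card + j * (FS (ins s f R) f).card ≤ (FS s f).card + j * Nat.card (Lg s f R)) ∧
      Nat.card R * (FS (outs s f R) (bar f R)).card * (FS (ins s f R) f).card ≤ Nat.card (Lg s f R) * (FS s f).card ∧
      (FS (outs s f R) (bar f R)).card * (FS (ins s f R) f).card ≤ (FS s f).card) ∧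
    (R ≠ ⊥ → 1 ≤ (ins s f R).card ∧ (FS (ins s f R) f).card + 1 ≤ Nat.card (Lg s f R) ∧
      (ins s f R).card + 1 ≤ (FS (ins s f R) f).card) ∧
    (NoDrop s f → 2 ≤ (outs s f R).card ∧ (¬ IsAddCyclic (G ⧸ R) → 3 ≤ (outs s f R).card))

/-- **Cb** (1.5 h, from Ca).  Maximal candidates.  `⊥` is a candidate: no member is in `⊥`, `Lg s f ⊥ = ⊥`, `st T ⊥ = T`, `per T = ⊥`, and `⊥ ≠ ⊤` as `G` is nontrivial.  Let `R` be a candidate with `|R|` maximal, `i ∈ s`, `f i ∉ R`, `L = Lg s f R`, `M = L ⊔ ⟨f i⟩`,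
`R' = per (st T M)`.  `M ≤ R'`.  `R ≤ R'`: `st T L = st T R` (Ca (1)), so `st T M = st (st T L) M = st (st T R) M` is `R`-periodic.  And `f i ∈ M ≤ R'`, `f i ∉ R`: `R < R'`, `|R| < |R'|`.  `L' = Lg s f R'`: `M ≤ L'` (`L` is generated by members in `R ≤ R'`, and `f i ∈ R'`), `L' ≤ R'`,
so `st T M ⊆ st T L' ⊆ st (st T M) R' = st T M`.  So `R' = per (st T L')`; if `R' ≠ ⊤` this is a candidate, against the maximality.  So `R' = ⊤`, `st T M` is nonempty and `⊤`-periodic: everything. -/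
def St_Cb : Prop :=
  ∀ (G ι : Type) [AddCommGroup G] [Finite G] [Nontrivial G] (s : Finset ι) (f : ι → G), Bas s f →
    ∃ R : AddSubgroup G, Cand s f R ∧
      ∀ i ∈ s, f i ∉ R → ∀ x : G, x ∈ st (FS s f) (Lg s f R ⊔ AddSubgroup.zmultiples (f i))

/-- **La** (0.8 h, from Qg).  `Y lam_{T'}(w̄) ≤ lam_T(w)`, `T' = FS (outs s f R) f̄`, `Y = |FS (ins s f R) f|`.
Proof.  `T'` = the cosets of `R` that meet `T` (Qg (1)).  Let `c ∈ T'` with `c + w̄ ∉ T'`.  `T = FS (ins) f + FS (outs) f`, so the coset `c` contains a translate `z + FS (ins s f R) f ⊆ T` (`z ∈ FS (outs) f`), `Y` elements `x ∈ T` in the coset `c`; `x + w` is in the coset `c + w̄`, which does not meet `T`.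
Different `c` give different elements. -/
def St_La : Prop :=
  ∀ (G ι : Type) [AddCommGroup G] [Finite G] (s : Finset ι) (f : ι → G) (R : AddSubgroup G) (w : G),
    (FS (ins s f R) f).card * lam (FS (outs s f R) (bar f R)) (QuotientAddGroup.mk w : G ⧸ R) ≤ lam (FS s f) w

/-! ## The linear bound -/

/-- **Lin** (2 h, from Ca, Qg, SDG.Ba1, SDG.Kn, SDG.Sm, SDG.Pc, and `lam_compl`).  `G` not cyclic, any multiplicities: `2 t ≤ |T| + 1`, and `2 t ≤ |T|` or `|G| ≤ |T| + 1`.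
Proof.  Induction on `t`, both statements together (all groups).  Let `T_i = FS (s.erase i) f`.  If `f i ∉ gen (s.erase i) f` for some `i ∈ s` (drop): `|T| = 2 |T_i| ≥ 2 t` (SDG.Ba1 (4), SDG.Sm): done.  So `gen (s.erase i) f = ⊤` for all `i ∈ s` (SDG.Ba1 (6)), `t ≥ 1` (`G` is not
trivial), and induction applies to all `s.erase i`: `2 (t-1) ≤ |T_i| + 1`, and `2 (t-1) ≤ |T_i|` or `|G| ≤ |T_i| + 1`.  As `T_i + f i ⊄ T_i` (aperiodic, `f i ≠ 0`) `|T_i| < |T|`; `|T| < |G|` (aperiodic, `G ≠ 0`).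
(A) second statement.  If `|G| ≤ |T_i| + 1` then `|T_i| ≥ |G| - 1 ≥ |T|`: impossible.  So `2 (t-1) ≤ |T_i| ≤ |T| - 1`: `2 t ≤ |T| + 1`.
(B) first statement: suppose `|T| < 2 t` and `|T| + 2 ≤ |G|`.  By (A) `|T| = 2 t - 1`, and `|T_i| ≥ 2 t - 2` as in (A), so `lam_T(f i) ≤ |T| - |T_i| ≤ 1` (SDG.Ba1 (3)) for all `i ∈ s`.  Fix `i0 ∈ s`, `z = f i0`, `P = per (st T ⟨z⟩)`; `z ∈ P`.
(B1) `P ≠ ⊤`.  `P` is a candidate: `⟨z⟩ ≤ Lg s f P ≤ P`, so `st T (Lg s f P) = st T ⟨z⟩` (as in Cb), `P = per` of it.  `P ≠ ⊥`.  Ca with `j = 1`: `v = |ins s f P| ≥ 1`, `u = |outs s f P| ≥ 2` (NoDrop), `Y = |FS (ins s f P) f| ≥ v + 1`, `Y + 1 ≤ |L| ≤ |P|`, `N = |FS (outs) f̄| ≥ u + 1` (SDG.Sm, aperiodic), and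
`|P| N + Y ≤ |T| + |L| ≤ |T| + |P|`, so `2 u + 2 v - 1 = |T| ≥ |P| u + Y ≥ (v + 2) u + v + 1`, i.e. `v (u - 1) + 2 ≤ 0`: impossible.
(B2) `P = ⊤`: `st T ⟨z⟩ = G`.  `Z = Tᶜ`, `|Z| ≥ 2`.  All elements of `Z` are in one coset of `⟨z⟩`: every coset meets `T`; a coset that also meets `Z` contains an `x ∈ T` with `x + z ∉ T` (otherwise, starting with an element of `T`, `T` contains the whole coset), and `lam_T(z) ≤ 1`.
For every member `f i`: `lam_Z(f i) = lam_T(f i) ≤ 1 < |Z|` (`lam_compl`), so some `w ∈ Z` has `w + f i ∈ Z`, hence `f i ∈ ⟨z⟩`.  So `G = gen s f = ⟨z⟩` is cyclic: contradiction. -/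
def St_Lin : Prop :=
  ∀ (G ι : Type) [AddCommGroup G] [Finite G] (s : Finset ι) (f : ι → G), ¬ IsAddCyclic G → Bas s f →
    2 * s.card ≤ (FS s f).card + 1 ∧ (2 * s.card ≤ (FS s f).card ∨ Nat.card G ≤ (FS s f).card + 1)

/-! ## Theorem S -/

/-- **N1** (0.7 h, from SDG.Nm1).  `τ = ⌈(t-1) / 2h⌉ = (t-2)/(2h) + 1`, `2 ≤ e ≤ 2 τ - 1`.  `c(h, t-1) ≤ c(h, t-e) + (e-1) τ` (each of the `e - 1` increments is at most `τ`).  `t - 1 ≥ 2h (τ-1) + 1`, so `c(h, t-e) ≥ t - e + 1 ≥ 2h (τ-1) + 3 - e ≥ 4 (τ-1) + 3 - (2 τ - 1) = 2 τ`.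
So `(e+1) c(h,t-e) - 2 c(h,t-1) ≥ (e-1) (c(h,t-e) - 2 τ) ≥ 0`. -/
def St_N1 : Prop :=
  ∀ h t e : ℕ, 2 ≤ h → 2 ≤ e → e + 1 ≤ t → e + 1 ≤ 2 * ((t - 2) / (2 * h) + 1) →
    2 * cf (2 * h) (t - 1) ≤ (e + 1) * cf (2 * h) (t - e)

/-- **N2** (1.2 h, from SDG.Nm1).  `τ = (t-2)/(2h) + 1`, `j = 2 τ - 1`, `j' = j / Y`, `c = cf (2 h)`.  Here `X = |T|`, `p = |T'|`, `R = |R|`, `Lc = |L|`.
Facts: `c(t-1) = c(t-2) + τ`; `t - 1 ≥ 2h (τ-1) + 1 ≥ 4 (τ - 1) + 1`; `c(t-1) ≤ c(k) + (e-1) τ`; `c(k) ≥ k + 1`.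
(a) `k ≥ τ`.  `X ≥ p Y ≥ (2e-1) Y ≥ (2e-1) c(k)` and `(2e-1) c(k) - 2 c(t-1) ≥ (2e-3) c(k) - 2 (e-1) τ`.  If `3 (k+1) ≥ 4 τ`: `(2e-3) * 4 τ / 3 ≥ 2 (e-1) τ` for `e ≥ 3`.  Otherwise `τ ≤ k`, `3 k < 4 τ - 3`, `c(k) ≥ τ + 1`, and `(2e-3)(τ+1) ≥ 2 (e-1) τ` iff
`2 e - 3 ≥ τ`, true since `e = t - k ≥ 4 τ - 2 - k`.  (b) `k < τ`.  `k + j' ≤ τ`: `k = 1`: `Y ≥ 2`, `j' ≤ (2τ-1)/2`, so `j' ≤ τ - 1`; `k ≥ 2`: `Y ≥ k + 1` and `2 τ - 1 < (k+1)(τ - k + 1)` since `(k-1) τ ≥ (k-1)(k+1) > (k+1)(k-1) - 1`.  So `e = t - k ≥ 4 τ - 2 - k ≥ 3 τ - 2 + j'`, and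
`2 e - 1 - j ≥ 2 (j + j' - 1)`.  Then `X ≥ R p + j Y - j Lc ≥ R (2e - 1 - j) + j Y ≥ 2 R (j + j' - 1) + 2 j ≥ 2 (c(t-2) + 1) + 2 j ≥ 2 c(t-1)` (`R l ≥ c(t-2) + 1`, `l ≤ j + j' - 1`, `Y ≥ 2`). -/
def St_N2 : Prop :=
  ∀ h t k e j Y l p R Lc X : ℕ, 2 ≤ h → k + e = t → 1 ≤ k → 3 ≤ e → j + 1 = 2 * ((t - 2) / (2 * h) + 1) → Y ≤ j →
    k + 1 ≤ Y → cf (2 * h) k ≤ Y → l + 1 ≤ j + j / Y → 2 * e ≤ p + 1 → Y + 1 ≤ Lc → Lc ≤ R →
    cf (2 * h) (t - 2) + 1 ≤ R * l → R * p + j * Y ≤ X + j * Lc → p * Y ≤ X → 2 * cf (2 * h) (t - 1) ≤ X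

/-- **Kq** (2 h, from El, Bs, Qg, Ca, La, Lin, SDG.Ba1, SDG.Sm, SDG.Pc).  The noncyclic quotient of a maximal candidate.  `k = |ins|`, `e = |outs|`, `Y = |FS (ins s f R) f|`, `K' = G / R`, `T' = FS (outs) f̄`, `p = |T'|`, `l = l0 K'`, `j' = j / Y`, `L = Lg s f R`.
Proof.  (a) Ca (5), (6).  By La `Y lam_{T'}(f̄ i) ≤ j`, so `lam_{T'}(f̄ i) ≤ j'` for all `i ∈ s` (for members in `R` it is `0`).  `T'` is aperiodic (Ca (2)) and `f̄ i ≠ 0` for `i ∈ outs`, so `lam ≥ 1`, `j' ≥ 1`, `Y ≤ j`.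
(b) Ca (4).  `p < 2 l + j`: `|R| p + j Y ≤ |T| + j |L| < 2 l0 G + j |R| ≤ |R| (2 l + j)` (El (4)).  (c) El (4).  (d) Lin for `T'` in `K'` (Qg).  (e) Let `i ∈ outs`, `z = f̄ i`, `μ` its order.  By hypothesis `T + L + ⟨f i⟩ = G`, so `T' + ⟨z⟩ = K'` (`L ≤ R`).  SDG.Pc (1) for `T'`, `⟨z⟩` (it is generated by the members in it:
`z` itself) and `j'`: `|K'| ≤ p + j' (μ - Y_z)`, `Y_z ≥ 2` (it contains `0`, `z`); so `|K'| ≤ p + j' (μ - 2)`.  `μ ≥ 3`: `z ≠ 0`, `z ≠ -z` (SDG.Ba1 (5)).  `|K'| = μ N`, `N = index of ⟨z⟩ ≥ l` (El (5)).  Suppose `l ≥ j + j'`.  Then `N ≥ j'` and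
`p ≥ μ (N - j') + 2 j' ≥ 3 (N - j') + 2 j' ≥ 3 l - j' ≥ 2 l + j`, against (b).
(f) `Two K'` (Qg (6)), `b = exp K' ≥ l` (Bs (3)), `|K'| = l b` (El (3)), `μ ≤ b`: `p ≥ l b - j' (b - 2) = b (l - j') + 2 j' ≥ l (l - j') + 2 j'` if `l > j'`. -/
def St_Kq : Prop :=
  ∀ (G ι : Type) [AddCommGroup G] [Finite G] (s : Finset ι) (f : ι → G) (R : AddSubgroup G) (j : ℕ), Bas s f → NoDrop s f →
    Cand s f R → R ≠ ⊥ → ¬ IsAddCyclic (G ⧸ R) → (∀ i ∈ s, lam (FS s f) (f i) ≤ j) →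
    (∀ i ∈ s, f i ∉ R → ∀ x : G, x ∈ st (FS s f) (Lg s f R ⊔ AddSubgroup.zmultiples (f i))) →
    (FS s f).card + 1 ≤ 2 * l0 G →
      let k := (ins s f R).card
      let e := (outs s f R).card
      let Y := (FS (ins s f R) f).card
      let p := (FS (outs s f R) (bar f R)).card
      let l := l0 (G ⧸ R)
      let Lc := Nat.card (Lg s f R)
      (k + e = s.card ∧ 1 ≤ k ∧ 3 ≤ e ∧ Y + 1 ≤ Lc ∧ Lc ≤ Nat.card R ∧ k + 1 ≤ Y ∧ Y ≤ j) ∧
      (Nat.card R * p + j * Y ≤ (FS s f).card + j * Lc ∧ p * Y ≤ (FS s f).card) ∧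
      (l0 G ≤ Nat.card R * l ∧ 2 ≤ l) ∧ 2 * e ≤ p + 1 ∧ l + 1 ≤ j + j / Y ∧
      (Two G → j / Y < l → l * (l - j / Y) + 2 * (j / Y) ≤ p)

/-- **Cc** (1 h, from El, Qg, Ca, SDG.Sm).  Candidates with cyclic quotient.  `|T| < 2 l0 G`.  `G` is not cyclic.
Proof.  `l0 G ≤ |R|` (El (1)), `R ≠ ⊥` (otherwise `G / ⊥ ≅ G` is cyclic).  Let `e = |outs|`, `N = |FS (outs) f̄| ≥ e + 1` (SDG.Sm, aperiodic by Ca (2)).  Ca (4): `|R| N + j Y ≤ |T| + j |L| < 2 |R| + j |L|`, so `N ≤ j + 1` (`|L| ≤ |R|`, `Y ≥ 1`), and if `L ≠ R` then `2 |L| ≤ |R|` and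
`|R| N < 2 |R| + j |R| / 2`, i.e. `2 N < j + 4`.  `2 N Y ≤ |T|` if `L ≠ R`: Ca (4), `|R| N Y ≤ |L| |T|`. -/
def St_Cc : Prop :=
  ∀ (G ι : Type) [AddCommGroup G] [Finite G] (s : Finset ι) (f : ι → G) (R : AddSubgroup G) (j : ℕ), ¬ IsAddCyclic G → Bas s f →
    NoDrop s f → Cand s f R → IsAddCyclic (G ⧸ R) → (∀ i ∈ s, lam (FS s f) (f i) ≤ j) → (FS s f).card + 1 ≤ 2 * l0 G →
      R ≠ ⊥ ∧ l0 G ≤ Nat.card R ∧ 2 ≤ (outs s f R).card ∧ (outs s f R).card + 1 ≤ (FS (outs s f R) (bar f R)).card ∧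
      (FS (outs s f R) (bar f R)).card ≤ j + 1 ∧
      (FS (outs s f R) (bar f R)).card * (FS (ins s f R) f).card ≤ (FS s f).card ∧
      (Lg s f R ≠ R → 2 * (FS (outs s f R) (bar f R)).card < j + 4 ∧
        2 * ((FS (outs s f R) (bar f R)).card * (FS (ins s f R) f).card) ≤ (FS s f).card)

/-- the bound of Theorem S -/
def SS (h t : ℕ) : Prop :=
  ∀ (G ι : Type) [AddCommGroup G] [Finite G] (s : Finset ι) (f : ι → G), ¬ IsAddCyclic G → s.card = t → Bas s f →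
    Cap (2 * h) s f → 2 * cf (2 * h) (t - 1) ≤ (FS s f).card ∨ 2 * l0 G ≤ (FS s f).card

/-- **S** (2 h, from El, Ca, Cb, Kq, Cc, N1, N2, SDG.Nm1, SDG.Ba1, SDG.Sm, SDG.Pc, SDG.main).  THEOREM S: `h ≥ 2`, `G` not cyclic (any rank): `|T| ≥ min (2 c(h, t-1), 2 l0 G)`.
Proof.  Strong induction on `t`; suppose `|T| < 2 c(h,t-1)` and `|T| < 2 l0 G`.  `T_i = FS (s.erase i) f`.
(0) No drop: if `f i ∉ gen (s.erase i) f` then `|T| = 2 |T_i| ≥ 2 c(h,t-1)` by `TT h (t-1)` (SDG.main).  So `gen (s.erase i) f = ⊤` (SDG.Ba1 (6)); `t ≥ 3` (two members with no drop give a cyclic group).  Induction for `s.erase i`: `|T_i| ≥ 2 c(h,t-2)` (the other alternative gives `|T| ≥ 2 l0 G`).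
So `lam_T(f i) ≤ |T| - |T_i| ≤ 2 c(h,t-1) - 1 - 2 c(h,t-2) = 2 τ - 1 =: j`, `τ = (t-2)/(2h) + 1` (SDG.Nm1 (1)).  `|T| ≥ |T_i| + 1` (aperiodic), so `2 l0 G > 2 c(h,t-2) + 1`, `l0 G ≥ c(h,t-2) + 1`.
(1) No candidate `R` has a cyclic quotient: Cc gives `e + 1 ≤ N ≤ j + 1`, `e ≤ j = 2 τ - 1`, `|T| ≥ N Y ≥ (e+1) c(h,t-e)` (`Y ≥ c(h,k)` by `TT h k`, `k = t - e`; the family `ins s f R` has `Cap (2h)`, aperiodic sums), and N1 is a contradiction.
(2) Let `R` be the candidate of Cb.  `G / R` is not cyclic by (1).  `R = ⊥`: `Lg s f ⊥ = ⊥`, so `T + ⟨z⟩ = G` for a member `z` (`t ≥ 1`); SDG.Pc (2) for `L = ⟨z⟩` (generated by the member `z`): `|G| Y_z ≤ |⟨z⟩| |T|`, `Y_z ≥ 2`: `|T| ≥ 2 [G : ⟨z⟩] ≥ 2 l0 G` (El (5)): contradiction.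
(3) `R ≠ ⊥`: Kq and N2 (`Y ≥ c(h,k)` by `TT h k`; `R l ≥ l0 G ≥ c(h,t-2) + 1`) give `2 c(h,t-1) ≤ |T|`: contradiction. -/
def St_S : Prop := ∀ h t : ℕ, 2 ≤ h → SS h t

end Pool.Agent.SSN
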